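import Pool.Agent.BER.StmtsE
import Pool.Agent.BEL.StmtsP
import Pool.Agent.Helper70_BE01.Conv

/-!
# Squad BEP (MP_be01ff_an): cylinders. Definitions.

`Pr Ω1 Ω2 ⊂ ℝ^(d+m)` is the product of `Ω1 ⊂ ℝ^d` and `Ω2 ⊂ ℝ^m`.
-/

namespace Pool.Agent.BEP

open Set Filter Topology MeasureTheory
open scoped InnerProductSpace ENNReal
open Pool.Agent Pool.Agent.BE01 Pool.Agent.BEG

noncomputable section

variable {d m : ℕ}

/-- The first `d` coordinates. -/
def fs (x : En (d + m)) : En d := WithLp.toLp 2 fun i => x (Fin.castAdd m i)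
/-- The last `m` coordinates. -/
def sn (x : En (d + m)) : En m := WithLp.toLp 2 fun j => x (Fin.natAdd d j)
/-- The point with the first coordinates `y` and the last coordinates `z`. -/
def jn (y : En d) (z : En m) : En (d + m) := WithLp.toLp 2 (Fin.append y z)

@[simp] theorem fs_apply (x : En (d + m)) (i : Fin d) : fs x i = x (Fin.castAdd m i) := rfl
@[simp] theorem sn_apply (x : En (d + m)) (j : Fin m) : sn x j = x (Fin.natAdd d j) := rfl
@[simp] theorem jn_left (y : En d) (z : En m) (i : Fin d) : jn y z (Fin.castAdd m i) = y i :=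
  Fin.append_left _ _ _
@[simp] theorem jn_right (y : En d) (z : En m) (j : Fin m) : jn y z (Fin.natAdd d j) = z j :=
  Fin.append_right _ _ _

@[simp] theorem fs_jn (y : En d) (z : En m) : fs (jn y z) = y := by
  ext i; simp
@[simp] theorem sn_jn (y : En d) (z : En m) : sn (jn y z) = z := by
  ext i; simp
@[simp] theorem jn_fs_sn (x : En (d + m)) : jn (fs x) (sn x) = x := by
  ext i
  refine Fin.addCases (fun i => ?_) (fun j => ?_) i <;> simp

theorem fs_add (x x' : En (d + m)) : fs (x + x') = fs x + fs x' := by ext i; simp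
theorem sn_add (x x' : En (d + m)) : sn (x + x') = sn x + sn x' := by ext i; simp
theorem fs_smul (c : ℝ) (x : En (d + m)) : fs (c • x) = c • fs x := by ext i; simp
theorem sn_smul (c : ℝ) (x : En (d + m)) : sn (c • x) = c • sn x := by ext i; simp
theorem jn_add (y y' : En d) (z z' : En m) : jn (y + y') (z + z') = jn y z + jn y' z' := by
  ext i
  refine Fin.addCases (fun i => ?_) (fun j => ?_) i <;> simp
theorem jn_smul (c : ℝ) (y : En d) (z : En m) : jn (c • y) (c • z) = c • jn y z := by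
  ext i
  refine Fin.addCases (fun i => ?_) (fun j => ?_) i <;> simp

theorem inner_jn (y y' : En d) (z z' : En m) :
    ⟪jn y z, jn y' z'⟫_ℝ = ⟪y, y'⟫_ℝ + ⟪z, z'⟫_ℝ := by
  simp [PiLp.inner_apply, Fin.sum_univ_add]

theorem norm_jn (y : En d) (z : En m) : ‖jn y z‖ ^ 2 = ‖y‖ ^ 2 + ‖z‖ ^ 2 := by
  rw [← real_inner_self_eq_norm_sq, inner_jn, real_inner_self_eq_norm_sq,
    real_inner_self_eq_norm_sq]

/-- The product of `Ω1` and `Ω2`. -/
def Pr (Ω1 : Set (En d)) (Ω2 : Set (En m)) : Set (En (d + m)) := {x | fs x ∈ Ω1 ∧ sn x ∈ Ω2}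

/-- The isometry `(y, z) ↦ (A y, z)`. -/
def ex (m : ℕ) (A : En d ≃ₗᵢ[ℝ] En d) : En (d + m) ≃ₗᵢ[ℝ] En (d + m) where
  toFun x := jn (A (fs x)) (sn x)
  map_add' x x' := by rw [fs_add, sn_add, map_add, jn_add]
  map_smul' c x := by rw [fs_smul, sn_smul, map_smul, jn_smul]; rfl
  invFun x := jn (A.symm (fs x)) (sn x)
  left_inv x := by simp
  right_inv x := by simp
  norm_map' x := by
    show ‖jn (A (fs x)) (sn x)‖ = ‖x‖
    have h : ‖jn (A (fs x)) (sn x)‖ ^ 2 = ‖x‖ ^ 2 := by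
      rw [norm_jn, A.norm_map, ← norm_jn, jn_fs_sn]
    exact (sq_eq_sq₀ (norm_nonneg _) (norm_nonneg _)).1 h

theorem ex_apply (A : En d ≃ₗᵢ[ℝ] En d) (x : En (d + m)) : ex m A x = jn (A (fs x)) (sn x) := rfl

/-- The isometries `x ↦ A x`, `A ∈ G`, as pairs. -/
def li (G : Set (En d ≃ₗᵢ[ℝ] En d)) : Set ((En d ≃ₗᵢ[ℝ] En d) × En d) := {g | g.1 ∈ G ∧ g.2 = 0}

/-- The isometries `(y, z) ↦ (A y, z)`, `A ∈ G`. -/
def exs (m : ℕ) (G : Set (En d ≃ₗᵢ[ℝ] En d)) : Set (En (d + m) ≃ₗᵢ[ℝ] En (d + m)) := ex m '' G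

/-- The eigenvalues of the Dirichlet problem with a nonzero eigenfunction invariant under `G`. -/
def Sp (Ω : Set (En d)) (G : Set (En d ≃ₗᵢ[ℝ] En d)) : Set ℝ :=
  {l | ∃ u : Lp ℝ 2 (mu Ω), Inv Ω (li G) u ∧ u ≠ 0 ∧ IsEig Ω l u}

/-- The hypotheses of Theorem `F_R`. -/
def Frc (T : Set ℝ) (p : ℕ) (l : ℝ) : Prop :=
  l ∈ T ∧ (∀ n : ℕ, Odd n → 3 ≤ n → n ≤ 2 * p + 1 → (n : ℝ) ^ 2 * l ∉ T) ∧
  ∀ J : ℕ, ∃ M, J ≤ M ∧ ∀ n : ℕ, Odd n → M < n → n ≤ M + 2 * p → (n : ℝ) ^ 2 * l ∉ T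

/-- The domain `R Ω`. -/
def Sc (R : ℝ) (Ω : Set (En d)) : Set (En d) := {x | R⁻¹ • x ∈ Ω}

end

end Pool.Agent.BEP
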