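import Pool.Agent.BEP.Defs

/-!
# Squad BEP (MP_be01ff_an): cylinders. Statements.

THEOREM.  Let `d ≥ 2`, `m ≥ 1` and let `O ⊂ ℝ^m` be ANY bounded open nonempty set.  There is a
countable set `C` such that for `R > 0`, `R ∉ C`, every `a > 0` and every even power `2p` the cylinder
`B_R × O ⊂ ℝ^(d+m)` (`B_R` the ball of `ℝ^d`) has a solution with the sharp rate.

PLAN.  Theorem `F_R` of squad BER.  The eigenvalues of `Ω1 × Ω2` are the sums `l1 + l2` (with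
symmetries acting on the first factor); for `R Ω1 × Ω2` they are `l1/R² + l2`.  If
`n² (l1/R² + l2) = l1'/R² + l2'` then `n² l1 = l1'` or `R` is the only solution; so for all but
countably many `R` a resonance of the product is a resonance of `Ω1`.
-/

namespace Pool.Agent.BEP

open Set Filter Topology MeasureTheory
open scoped InnerProductSpace ENNReal
open Pool.Agent Pool.Agent.BE01 Pool.Agent.BEG Pool.Agent.BEH
open Pool.Agent.BEO (BB)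
open Pool.Agent.BER (Sh)

noncomputable section

/-! ## Part 1: the product -/

/-- PMP: the measure of the product (no hypotheses).  `fs`, `sn`, `jn` are linear maps between
finite-dimensional spaces, so continuous (`LinearMap.continuous_of_finiteDimensional`), and inverse to
each other (`Defs`).  Lebesgue measure: `EuclideanSpace.volume_preserving_measurableEquiv` (or its new
name) for `d`, `m`, `d + m`, and `ℝ^(d+m) → ℝ^d × ℝ^m` by `volume_measurePreserving_piCongrLeft` for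
`finSumFinEquiv` and `volume_measurePreserving_sumPiEquivProdPi`.  Another way: the image measure is
translation invariant, so a multiple of the volume (`Measure.addHaar`), with the factor `1` because of the
unit cubes.  Restriction: `Pr Ω1 Ω2 = e ⁻¹' (Ω1 ×ˢ Ω2)`, `Measure.prod_restrict`,
`MeasurePreserving.restrict_preimage`.  `Dom`: open and nonempty clear, bounded by `norm_jn`. -/
def PmpStmt : Prop := ∀ (d m : ℕ), ∃ e : En (d + m) ≃ᵐ En d × En m,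
  (∀ x, e x = (fs x, sn x)) ∧ (∀ q, e.symm q = jn q.1 q.2) ∧
  Continuous (fun x : En (d + m) => (fs x, sn x)) ∧
  Continuous (fun q : En d × En m => jn q.1 q.2) ∧
  (∀ (Ω1 : Set (En d)) (Ω2 : Set (En m)), MeasurableSet Ω1 → MeasurableSet Ω2 →
    MeasurePreserving e (mu (Pr Ω1 Ω2)) ((mu Ω1).prod (mu Ω2))) ∧
  ∀ (Ω1 : Set (En d)) (Ω2 : Set (En m)), Dom Ω1 → Dom Ω2 → Dom (Pr Ω1 Ω2)

/-- PTT: test functions (no hypotheses).  `fs`, `sn`, `jn · z`, `jn y ·` are smooth (affine).  Supports: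
`tsupport` of the product is in the preimage of `tsupport ψ1 ×ˢ tsupport ψ2`, compact; `tsupport` of
`y ↦ Ψ (jn y z)` is in the image of `tsupport Ψ` under `fs`.  Gradients: `HasGradientAt`, or test
with an arbitrary vector: `⟪∇Ψ(jn y z), jn h 0⟫ = ⟪fs (∇Ψ(jn y z)), h⟫` (`inner_jn`, `jn_fs_sn`). -/
def PttStmt : Prop := ∀ (d m : ℕ) (Ω1 : Set (En d)) (Ω2 : Set (En m)),
  (∀ (ψ1 : En d → ℝ) (ψ2 : En m → ℝ), BE01F.Test Ω1 ψ1 → BE01F.Test Ω2 ψ2 →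
    BE01F.Test (Pr Ω1 Ω2) (fun x => ψ1 (fs x) * ψ2 (sn x)) ∧
    ∀ x, gradient (fun x : En (d + m) => ψ1 (fs x) * ψ2 (sn x)) x =
      jn (ψ2 (sn x) • gradient ψ1 (fs x)) (ψ1 (fs x) • gradient ψ2 (sn x))) ∧
  ∀ Ψ : En (d + m) → ℝ, BE01F.Test (Pr Ω1 Ω2) Ψ →
    (∀ z, BE01F.Test Ω1 (fun y => Ψ (jn y z)) ∧
      ∀ y, gradient (fun y => Ψ (jn y z)) y = fs (gradient Ψ (jn y z))) ∧
    ∀ y, BE01F.Test Ω2 (fun z => Ψ (jn y z)) ∧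
      ∀ z, gradient (fun z => Ψ (jn y z)) z = sn (gradient Ψ (jn y z))

/-- PHH: products are in `H^1_0` (uses PMP, PTT).  `‖f ⊗ g‖ = ‖f‖ ‖g‖` for the norms of `L²`
(`eLpNorm` with exponent `2` as a `lintegral`, PMP, `lintegral_prod_mul`; also for vector valued `f`
or `g`).  For `ψ1`, `ψ2` close to `u`, `v`: `u ⊗ v - ψ1 ⊗ ψ2 = (u - ψ1) ⊗ v + ψ1 ⊗ (v - ψ2)`, and the same
for the two components of the gradient (`‖jn y z‖ ≤ ‖y‖ + ‖z‖`); `‖ψ1‖ ≤ ‖u‖ + 1` etc.  First choose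
`ψ1`, then `ψ2`; or take both with the accuracy `δ`, all norms of `u, v, F, K` being `≤ B`: the error is
`≤ 2 δ (2B + 1)`. -/
def PhhStmt : Prop := ∀ (d m : ℕ) (Ω1 : Set (En d)) (Ω2 : Set (En m)) (u : En d → ℝ)
  (v : En m → ℝ) (F : En d → En d) (K : En m → En m), MeasurableSet Ω1 → MeasurableSet Ω2 →
  BE01F.H10 Ω1 u F → BE01F.H10 Ω2 v K →
  BE01F.H10 (Pr Ω1 Ω2) (fun x => u (fs x) * v (sn x))
    (fun x => jn (v (sn x) • F (fs x)) (u (fs x) • K (sn x)))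

/-- PEE: products of eigenfunctions (uses PMP, PTT, PHH).  For a test function `Ψ`, by PMP and Fubini
(the integrands are products of `L²` functions on a space of finite measure and bounded functions):
`∫ ⟪jn (v F) (u K), ∇Ψ⟫ = ∫ v(z) (∫ ⟪F(y), fs ∇Ψ⟫ dy) dz + ∫ u(y) (∫ ⟪K(z), sn ∇Ψ⟫ dz) dy` (`inner_jn` with
`∇Ψ = jn (fs ∇Ψ) (sn ∇Ψ)`), and the inner integrals are `l1 ∫ u(y) Ψ(jn y z) dy` and
`l2 ∫ v(z) Ψ(jn y z) dz` by PTT. -/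
def PeeStmt : Prop := ∀ (d m : ℕ) (Ω1 : Set (En d)) (Ω2 : Set (En m)) (l1 l2 : ℝ)
  (u : En d → ℝ) (v : En m → ℝ), Dom Ω1 → Dom Ω2 → BE01F.Eig Ω1 l1 u → BE01F.Eig Ω2 l2 v →
  BE01F.Eig (Pr Ω1 Ω2) (l1 + l2) (fun x => u (fs x) * v (sn x))

/-- PEV: the same for classes (uses PMP, PEE; `eig_to`, `eig_of` of `Helper70_BE01/Conv.lean`; MGP of
BEG).  `w` = the class of `u(fs x) v(sn x)`.  `w ≠ 0`: `‖w‖ = ‖u‖ ‖v‖` (or: `w = 0` gives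
`u(y) v(z) = 0` for almost all `(y, z)`).  Invariance: `w(jn (A y) z) = u(A y) v(z)` for almost all
`(y, z)`; `mv (ex m A, 0) x = jn (A (fs x)) (sn x)`. -/
def PevStmt : Prop := ∀ (d m : ℕ) (Ω1 : Set (En d)) (Ω2 : Set (En m)) (l1 l2 : ℝ)
  (u : Lp ℝ 2 (mu Ω1)) (v : Lp ℝ 2 (mu Ω2)), Dom Ω1 → Dom Ω2 → IsEig Ω1 l1 u → IsEig Ω2 l2 v →
  ∃ w : Lp ℝ 2 (mu (Pr Ω1 Ω2)), (w =ᵐ[mu (Pr Ω1 Ω2)] fun x => u (fs x) * v (sn x)) ∧
    IsEig (Pr Ω1 Ω2) (l1 + l2) w ∧ (u ≠ 0 → v ≠ 0 → w ≠ 0) ∧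
    ∀ G : Set (En d ≃ₗᵢ[ℝ] En d), Syms Ω1 (li G) → Inv Ω1 (li G) u →
      Inv (Pr Ω1 Ω2) (li (exs m G)) w

/-- SYP: symmetries of the product (no hypotheses). -/
def SypStmt : Prop := ∀ (d m : ℕ) (Ω1 : Set (En d)) (Ω2 : Set (En m))
  (G : Set (En d ≃ₗᵢ[ℝ] En d)), Syms Ω1 (li G) → Syms (Pr Ω1 Ω2) (li (exs m G))

/-! ## Part 2: eigenfunctions -/

/-- ORT: eigenfunctions for different eigenvalues are orthogonal (uses `Pool.Agent.BEO.WeoStmt`).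
`l ⟪u, u'⟫ = ∫ ⟪∇u, ∇u'⟫ = l' ⟪u', u⟫` by WEO with `f = l • u` and with `f = l' • u'`. -/
def OrtStmt : Prop := ∀ (d : ℕ) (Ω : Set (En d)) (l l' : ℝ) (u u' : Lp ℝ 2 (mu Ω)), Dom Ω →
  IsEig Ω l u → IsEig Ω l' u' → l ≠ l' → ⟪u, u'⟫_ℝ = 0

/-- BAS: the basis of eigenfunctions (uses `Pool.Agent.BEL.EmpStmt`, `Pool.Agent.BEL.EigStmt`).  EMP:
`ι`, EIG: `b`, `e`, `om` with `⟪b k, ι G⟫ = (om k)⁻¹ ⟪e k, G⟫`.  So `ι (e k) = (om k)⁻¹ b k` (all its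
coefficients), `(b k, om k e k) ∈ H10` (`Grf`), and for a test function `ψ` (`∇ψ ∈ VV`, `ι ∇ψ = ψ` by
`Emb2`) `⟪om k e k, ∇ψ⟫ = om k² ⟪b k, ψ⟫`.  The eigenvalues here are `(om k)²`. -/
def BasStmt : Prop := ∀ (m : ℕ) (Ω : Set (En m)), 0 < m → Dom Ω →
  ∃ (b : HilbertBasis ℕ ℝ (Lp ℝ 2 (mu Ω))) (om : ℕ → ℝ), ∀ k, IsEig Ω (om k) (b k)

/-- CNS: the spectrum is countable and not empty (uses ORT, BAS).  If `IsEig Ω l u`, `u ≠ 0`, then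
`⟪b k, u⟫ ≠ 0` for some `k`, so `l = om k`.  `b 0 ≠ 0`; `Inv Ω (li ∅) u` always. -/
def CnsStmt : Prop := ∀ (d : ℕ) (Ω : Set (En d)) (G : Set (En d ≃ₗᵢ[ℝ] En d)), 0 < d → Dom Ω →
  (Sp Ω G).Countable ∧ (Sp Ω ∅).Nonempty

/-- CPK: completeness of the invariant eigenfunctions (uses WXC of BEN, KSY of BEG).  `K` = the space
of the invariant functions (KSY), `W`, `Z` from WXC with `Ω' = Ω`; `S = W.S` is compact (`Wok.comp`),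
symmetric and injective (`Prp`), `S h ∈ K` for `h ∈ K` (`Kst.slv`, `Wok.dom`, `Wok.weak`), `K` closed, so
complete.  The restriction of `S` to `K` is compact and symmetric, so
`w ∈ K` orthogonal to all its eigenspaces is `0`
(`ContinuousLinearMap.orthogonalComplement_iSup_eigenspaces_eq_bot` or its variant for compact
symmetric operators; compare `Helper19_BEG/SLK.lean` and `fre` of BE01); eigenvectors `S η = μ η` have
`μ ≠ 0` (injective), `η = μ⁻¹ S η`, so `IsEig Ω μ⁻¹ η` (`Wok.eig`). -/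
def CpkStmt : Prop := ∀ (d : ℕ) (Ω : Set (En d)) (G : Set (En d ≃ₗᵢ[ℝ] En d))
  (w : Lp ℝ 2 (mu Ω)), 2 ≤ d → Dom Ω → Syms Ω (li G) → Inv Ω (li G) w →
  (∀ (l : ℝ) (η : Lp ℝ 2 (mu Ω)), Inv Ω (li G) η → IsEig Ω l η → ⟪w, η⟫_ℝ = 0) → w = 0

/-- PFI: the coefficients (uses PMP and MGP of BEG).  `w k (y) = ∫ u(jn y z) b_k(z) dz`: by PMP the
function `(y, z) ↦ u(jn y z)` is in `L²` of the product, Cauchy-Schwarz gives
`|w k (y)|² ≤ ∫ u(jn y z)² dz`, measurability by Fubini (`AEStronglyMeasurable.integral_prod_right'`).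
`⟪w k, η⟫ = ∫∫ u η b_k = ⟪u, v⟫` by Fubini.  Invariance: `u(jn (A y) z) = u(jn y z)` for almost all
`(y, z)`, and `y ↦ A y` preserves `mu Ω1` (MGP).  Last: for almost all `y` the function
`u(jn y ·)` is in `L²(Ω2)` and orthogonal to all `b_k`, so it is `0`. -/
def PfiStmt : Prop := ∀ (d m : ℕ) (Ω1 : Set (En d)) (Ω2 : Set (En m))
  (G : Set (En d ≃ₗᵢ[ℝ] En d)) (b : HilbertBasis ℕ ℝ (Lp ℝ 2 (mu Ω2)))
  (u : Lp ℝ 2 (mu (Pr Ω1 Ω2))), Dom Ω1 → Dom Ω2 → Syms Ω1 (li G) →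
  Inv (Pr Ω1 Ω2) (li (exs m G)) u → ∃ w : ℕ → Lp ℝ 2 (mu Ω1), (∀ k, Inv Ω1 (li G) (w k)) ∧
    (∀ (k : ℕ) (η : Lp ℝ 2 (mu Ω1)) (v : Lp ℝ 2 (mu (Pr Ω1 Ω2))),
      (v =ᵐ[mu (Pr Ω1 Ω2)] fun x => η (fs x) * b k (sn x)) → ⟪w k, η⟫_ℝ = ⟪u, v⟫_ℝ) ∧
    ((∀ k, w k = 0) → u = 0)

/-- SPP: the spectrum of the product (uses PMP, PEV, ORT, BAS, CPK, PFI).  `⊇` is PEV.  `⊆`: let `u ≠ 0`
be an invariant eigenfunction for `l` and suppose that `l` is not such a sum.  BAS for `Ω2`: `b`, `om`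
(`om k ∈ Sp Ω2 ∅`), PFI: `w`.  For an invariant eigenfunction `η ≠ 0` of `Ω1` for `l'`:
`l ≠ l' + om k`, so `⟪w k, η⟫ = ⟪u, v⟫ = 0` (`v` from PEV, ORT in the product, which is `Dom` by PMP).
CPK: `w k = 0` for all `k`, so `u = 0`. -/
def SppStmt : Prop := ∀ (d m : ℕ) (Ω1 : Set (En d)) (Ω2 : Set (En m))
  (G : Set (En d ≃ₗᵢ[ℝ] En d)), 2 ≤ d → 1 ≤ m → Dom Ω1 → Dom Ω2 → Syms Ω1 (li G) →
  (∀ l1 ∈ Sp Ω1 G, ∀ l2 ∈ Sp Ω2 ∅, l1 + l2 ∈ Sp (Pr Ω1 Ω2) (exs m G)) ∧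
  ∀ l ∈ Sp (Pr Ω1 Ω2) (exs m G), ∃ l1 ∈ Sp Ω1 G, ∃ l2 ∈ Sp Ω2 ∅, l = l1 + l2

/-! ## Part 3: scaling -/

/-- SCE: scaling of eigenfunctions (no hypotheses).  `Sc R Ω` is the preimage of `Ω` under the
homeomorphism `x ↦ R⁻¹ x`.  Test functions: `ψ(R⁻¹ ·)`, gradient `R⁻¹ (∇ψ)(R⁻¹ x)`, and back
`Ψ(R ·)`.  Integrals: `∫_(Sc R Ω) f(R⁻¹ x) dx = R^d ∫_Ω f` (`Measure.integral_comp_inv_smul`, applied
to indicators, or the image of the restricted measure; for `eLpNorm` the `lintegral` version or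
`eLpNorm_map_measure` with the image measure `R^d • mu Ω`).  The gradient of `u(R⁻¹ ·)` is
`R⁻¹ F(R⁻¹ ·)`. -/
def SceStmt : Prop := ∀ (d : ℕ) (Ω : Set (En d)) (R l : ℝ) (u : En d → ℝ), 0 < R → Dom Ω →
  Dom (Sc R Ω) ∧ (BE01F.Eig Ω l u → BE01F.Eig (Sc R Ω) (l / R ^ 2) (fun x => u (R⁻¹ • x)))

/-- SPC: scaling of the spectrum (uses SCE; `eig_to`, `eig_of` of `Helper70_BE01/Conv.lean`).  `A` is
linear: `A (R⁻¹ x) = R⁻¹ A x`, so invariance is preserved (the map `x ↦ R⁻¹ x` sends null sets of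
`Sc R Ω` to null sets of `Ω` and back).  `←`: SCE for `Ω`, `R`, `R² l`.  `→`: SCE for `Sc R Ω`, `R⁻¹`
(`Sc R⁻¹ (Sc R Ω) = Ω`): `l / (R⁻¹)² = R² l`. -/
def SpcStmt : Prop := ∀ (d : ℕ) (Ω : Set (En d)) (G : Set (En d ≃ₗᵢ[ℝ] En d)) (R : ℝ), 0 < R →
  Dom Ω → Syms Ω (li G) → Syms (Sc R Ω) (li G) ∧
    ∀ l : ℝ, l ∈ Sp (Sc R Ω) G ↔ R ^ 2 * l ∈ Sp Ω G

/-- ARI: arithmetic (no hypotheses).  `C` = the union over `n`, `a ∈ A`, `b ∈ B` with `n² l1 ≠ a` of the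
set of the `R > 0` with `n² (l1/R² + m1) = a/R² + b`, i.e. `(n² l1 - a) = (b - n² m1) R²`: at most one
`R`. -/
def AriStmt : Prop := ∀ (A B : Set ℝ) (l1 m1 : ℝ), A.Countable → B.Countable →
  ∃ C : Set ℝ, C.Countable ∧ ∀ R : ℝ, 0 < R → R ∉ C → ∀ n : ℕ, ∀ a ∈ A, ∀ b ∈ B,
    (n : ℝ) ^ 2 * (l1 / R ^ 2 + m1) = a / R ^ 2 + b → (n : ℝ) ^ 2 * l1 = a

/-! ## Part 4: cylinders -/

/-- CYL: the hypotheses of `F_R` for products (uses SPP, CNS, SCE, SPC, ARI).  `m1 ∈ Sp Ω2 ∅` (CNS),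
`A = Sp Ω1 G`, `B = Sp Ω2 ∅`, `C` from ARI.  `l = l1/R² + m1`: in the spectrum of the product by SPP and
SPC.  If `n² l` is in the spectrum then `n² l = l' + l''`, `a = R² l' ∈ A` (SPC), `l'' ∈ B`, so
`n² l1 = a ∈ Sp Ω1 G`: the conditions for `l1` give those for `l`, with the same `M`. -/
def CylStmt : Prop := ∀ (d m : ℕ) (Ω1 : Set (En d)) (Ω2 : Set (En m))
  (G : Set (En d ≃ₗᵢ[ℝ] En d)) (p : ℕ) (l1 : ℝ), 2 ≤ d → 1 ≤ m → Dom Ω1 → Dom Ω2 →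
  Syms Ω1 (li G) → Frc (Sp Ω1 G) p l1 → ∃ C : Set ℝ, C.Countable ∧
    ∀ R : ℝ, 0 < R → R ∉ C → ∃ l, Frc (Sp (Pr (Sc R Ω1) Ω2) (exs m G)) p l

/-- CYR: sharp decay in products (uses PMP, SYP, SCE, SPC, CYL and `Pool.Agent.BER.FrgStmt`).  The
union over `p` of the sets `C`; `Syms`, `Dom` of the product; FRG in dimension `d + m` with `li (exs m
G)` (`Frc` and `Sp` unfolded). -/
def CyrStmt : Prop := ∀ (d m : ℕ) (Ω1 : Set (En d)) (Ω2 : Set (En m))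
  (G : Set (En d ≃ₗᵢ[ℝ] En d)), 2 ≤ d → 1 ≤ m → Dom Ω1 → Dom Ω2 → Syms Ω1 (li G) →
  (∀ p : ℕ, 1 ≤ p → ∃ l1, Frc (Sp Ω1 G) p l1) → ∃ C : Set ℝ, C.Countable ∧
    ∀ (R a : ℝ) (p : ℕ), 0 < R → R ∉ C → 0 < a → 1 ≤ p →
      Rt (Pr (Sc R Ω1) Ω2) a ((2 * p : ℕ) : ℝ)

/-- BLP: balls (same uses and same proof as the row BLB of BER: KSY of BEG, YAS, NRA, GPA, JSD, SYB,
SPB, INE; without FRG).  `li univ = GO d`. -/
def BlpStmt : Prop := ∀ (d p : ℕ), 2 ≤ d → d ≠ 3 → 1 ≤ p →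
  ∃ l : ℝ, Frc (Sp (BB d 1) univ) p l

/-- SHP: shells (same uses and same proof as the row SHB of BER: KSY of BEG, YAS, NRA, GPA, SYB, INE,
SPH; without FRG).  `li univ = GO d`. -/
def ShpStmt : Prop := ∀ (d p : ℕ) (a b : ℝ), 2 ≤ d → d ≠ 3 → 1 ≤ p → 0 < a → a < b →
  ∃ l : ℝ, Frc (Sp (Sh d a b) univ) p l

/-- BLT: the ball of `ℝ³`, without symmetries (uses `Pool.Agent.BEO.BaoStmt` with `c = 0`: an
eigenvalue without any resonance). -/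
def BltStmt : Prop := ∀ p : ℕ, ∃ l : ℝ, Frc (Sp (BB 3 1) ∅) p l

/-- CYB: THE THEOREM (uses CYR, BLP, BLT, SHP, SYB of BER).  `Sc R (BB d 1) = BB d R`,
`Sc R (Sh d a b) = Sh d (R a) (R b)`; `li univ = GO d`; for `d = 3`: `G = ∅`. -/
def CybStmt : Prop := ∀ (d m : ℕ) (O : Set (En m)), 2 ≤ d → 1 ≤ m → Dom O →
  (∃ C : Set ℝ, C.Countable ∧ ∀ (R a : ℝ) (p : ℕ), 0 < R → R ∉ C → 0 < a → 1 ≤ p →
    Rt (Pr (BB d R) O) a ((2 * p : ℕ) : ℝ)) ∧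
  (d ≠ 3 → ∀ r s : ℝ, 0 < r → r < s → ∃ C : Set ℝ, C.Countable ∧
    ∀ (R a : ℝ) (p : ℕ), 0 < R → R ∉ C → 0 < a → 1 ≤ p →
      Rt (Pr (Sh d (R * r) (R * s)) O) a ((2 * p : ℕ) : ℝ))

end

end Pool.Agent.BEP
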